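import Pool.Agent.H16.SUn3

/-! # A two-dimensional block with prescribed spectra

If `a₀ + a₁` lies on the segment between `b₀c₀ + b₁c₁` and `b₀c₁ + b₁c₀` and the products agree,
then some unitary matrix with eigenvalues `a₀, a₁` is a product of one with eigenvalues `b₀, b₁`
and one with eigenvalues `c₀, c₁`. -/

namespace Pool.Agent.K3h30.SU4

open Matrix Pool.Agent.H16.SUn

/-- Real rotation matrix (as a complex matrix). -/
noncomputable def rot (x y : ℝ) : Matrix (Fin 2) (Fin 2) ℂ := !![(x : ℂ), -(y : ℂ); (y : ℂ), (x : ℂ)]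

theorem rot_ct (x y : ℝ) : (rot x y)ᴴ = !![(x : ℂ), (y : ℂ); -(y : ℂ), (x : ℂ)] := by
  ext i j
  fin_cases i <;> fin_cases j <;> simp [rot, Matrix.conjTranspose_apply]

theorem rot_unit (x y : ℝ) (h : x ^ 2 + y ^ 2 = 1) : (rot x y)ᴴ * rot x y = 1 := by
  have hc : (x : ℂ) ^ 2 + (y : ℂ) ^ 2 = 1 := by exact_mod_cast h
  rw [rot_ct]
  ext i j
  fin_cases i <;> fin_cases j
  · simp [rot, Matrix.mul_apply, Fin.sum_univ_two]
    linear_combination hc
  · simp [rot, Matrix.mul_apply, Fin.sum_univ_two]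
    ring
  · simp [rot, Matrix.mul_apply, Fin.sum_univ_two]
    ring
  · simp [rot, Matrix.mul_apply, Fin.sum_univ_two]
    linear_combination hc

theorem diag2_unit (b0 b1 : ℂ) (h0 : star b0 * b0 = 1) (h1 : star b1 * b1 = 1) :
    (diagonal ![b0, b1])ᴴ * diagonal ![b0, b1] = (1 : Matrix (Fin 2) (Fin 2) ℂ) := by
  rw [Matrix.diagonal_conjTranspose, Matrix.diagonal_mul_diagonal, ← Matrix.diagonal_one]
  congr 1
  funext i
  fin_cases i
  · simpa using h0
  · simpa using h1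

theorem unit_mul {n : Type*} [Fintype n] [DecidableEq n] {A B : Matrix n n ℂ} (hA : Aᴴ * A = 1)
    (hB : Bᴴ * B = 1) : (A * B)ᴴ * (A * B) = 1 := by
  rw [conjTranspose_mul]
  calc Bᴴ * Aᴴ * (A * B) = Bᴴ * (Aᴴ * A) * B := by simp only [mul_assoc]
    _ = 1 := by rw [hA, mul_one, hB]

theorem unit_ct {n : Type*} [Fintype n] [DecidableEq n] {A : Matrix n n ℂ} (hA : Aᴴ * A = 1) :
    (Aᴴ)ᴴ * Aᴴ = 1 := by
  rw [conjTranspose_conjTranspose]
  exact mul_eq_one_comm.mp hA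

theorem diag2_eq (a0 a1 : ℂ) : diagonal ![a0, a1] = !![a0, 0; 0, a1] := by
  ext i j
  fin_cases i <;> fin_cases j <;> simp

theorem swap2_ct : (!![0, 1; 1, 0] : Matrix (Fin 2) (Fin 2) ℂ)ᴴ = !![0, 1; 1, 0] := by
  ext i j
  fin_cases i <;> fin_cases j <;> simp [Matrix.conjTranspose_apply]

theorem swap2_diag (a0 a1 : ℂ) :
    (!![0, 1; 1, 0] : Matrix (Fin 2) (Fin 2) ℂ) * diagonal ![a1, a0] *
      (!![0, 1; 1, 0] : Matrix (Fin 2) (Fin 2) ℂ)ᴴ = diagonal ![a0, a1] := by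
  rw [diag2_eq, diag2_eq, swap2_ct]
  ext i j
  fin_cases i <;> fin_cases j <;> simp

theorem swap2_unit :
    (!![0, 1; 1, 0] : Matrix (Fin 2) (Fin 2) ℂ)ᴴ * (!![0, 1; 1, 0] : Matrix (Fin 2) (Fin 2) ℂ)
      = 1 := by
  ext i j
  fin_cases i <;> fin_cases j <;>
    simp [Matrix.mul_apply, Fin.sum_univ_two, Matrix.conjTranspose_apply]

theorem two_by_two (b0 b1 c0 c1 a0 a1 : ℂ) (hb0 : star b0 * b0 = 1) (hb1 : star b1 * b1 = 1)
    (hc0 : star c0 * c0 = 1) (hc1 : star c1 * c1 = 1) (t : ℝ) (ht0 : 0 ≤ t) (ht1 : t ≤ 1)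
    (hprod : a0 * a1 = (b0 * c0) * (b1 * c1))
    (hsum : a0 + a1 = t * (b0 * c0 + b1 * c1) + (1 - t) * (b0 * c1 + b1 * c0)) :
    ∃ r u : Matrix (Fin 2) (Fin 2) ℂ, rᴴ * r = 1 ∧ uᴴ * u = 1 ∧
      diagonal ![b0, b1] * (r * diagonal ![c0, c1] * rᴴ) = u * diagonal ![a0, a1] * uᴴ := by
  set x : ℝ := Real.sqrt t with hx
  set y : ℝ := Real.sqrt (1 - t) with hy
  have hx2 : x ^ 2 = t := Real.sq_sqrt ht0
  have hy2 : y ^ 2 = 1 - t := Real.sq_sqrt (by linarith)
  have hr : (rot x y)ᴴ * rot x y = 1 := rot_unit x y (by rw [hx2, hy2]; ring)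
  have hxc : (x : ℂ) ^ 2 = t := by exact_mod_cast hx2
  have hyc : (y : ℂ) ^ 2 = 1 - t := by
    have : ((y ^ 2 : ℝ) : ℂ) = ((1 - t : ℝ) : ℂ) := by rw [hy2]
    push_cast at this
    exact this
  set M := diagonal ![b0, b1] * (rot x y * diagonal ![c0, c1] * (rot x y)ᴴ) with hM
  have hMu : Mᴴ * M = 1 :=
    unit_mul (diag2_unit b0 b1 hb0 hb1)
      (unit_mul (unit_mul hr (diag2_unit c0 c1 hc0 hc1)) (unit_ct hr))
  obtain ⟨P, z, hP1, hP2, hPz, hz⟩ := diagonalise hMu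
  have hz2 : z = ![z 0, z 1] := by
    funext i; fin_cases i <;> rfl
  have htr : M.trace = t * (b0 * c0 + b1 * c1) + (1 - t) * (b0 * c1 + b1 * c0) := by
    rw [hM, rot_ct, Matrix.trace_fin_two, diag2_eq, diag2_eq, rot]
    simp
    linear_combination (b0 * c0 + b1 * c1) * hxc + (b0 * c1 + b1 * c0) * hyc
  have htr2 : M.trace = z 0 + z 1 := by
    rw [hPz, Matrix.trace_mul_comm, ← mul_assoc, hP1, one_mul, Matrix.trace_fin_two]
    simp
  have hdetr : (rot x y).det * ((rot x y)ᴴ).det = 1 := by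
    rw [mul_comm, ← det_mul, hr, det_one]
  have hdet : M.det = (b0 * c0) * (b1 * c1) := by
    rw [hM, det_mul, det_mul, det_mul, det_diagonal, det_diagonal]
    simp only [Fin.prod_univ_two, Matrix.cons_val_zero, Matrix.cons_val_one]
    linear_combination (b0 * b1 * (c0 * c1)) * hdetr
  have hdet2 : M.det = z 0 * z 1 := by
    have : P.det * (Pᴴ).det = 1 := by rw [← det_mul, hP2, det_one]
    rw [hPz, det_mul, det_mul, det_diagonal, Fin.prod_univ_two]
    linear_combination (z 0 * z 1) * this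
  have hs : z 0 + z 1 = a0 + a1 := by rw [← htr2, htr, hsum]
  have hp : z 0 * z 1 = a0 * a1 := by rw [← hdet2, hdet, hprod]
  have hq : (z 0 - a0) * (z 0 - a1) = 0 := by
    linear_combination z 0 * hs - hp
  rcases mul_eq_zero.mp hq with h | h
  · have h0 : z 0 = a0 := by linear_combination h
    have h1 : z 1 = a1 := by linear_combination hs - h
    refine ⟨rot x y, P, hr, hP1, ?_⟩
    rw [← h0, ← h1, ← hz2]
    exact hPz
  · have h0 : z 0 = a1 := by linear_combination h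
    have h1 : z 1 = a0 := by linear_combination hs - h
    refine ⟨rot x y, P * !![0, 1; 1, 0], hr, unit_mul hP1 swap2_unit, ?_⟩
    have h3 : M = P * diagonal ![z 0, z 1] * Pᴴ := by rw [← hz2]; exact hPz
    rw [← hM, h3, h0, h1, ← swap2_diag a1 a0, conjTranspose_mul]
    simp only [mul_assoc]

theorem block_sum {κ : Type*} [Fintype κ] [DecidableEq κ] (b c w : Fin 2 ⊕ κ → ℂ)
    (hb0 : star (b (Sum.inl 0)) * b (Sum.inl 0) = 1)
    (hb1 : star (b (Sum.inl 1)) * b (Sum.inl 1) = 1)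
    (hc0 : star (c (Sum.inl 0)) * c (Sum.inl 0) = 1)
    (hc1 : star (c (Sum.inl 1)) * c (Sum.inl 1) = 1)
    (hw : ∀ k, w (Sum.inr k) = b (Sum.inr k) * c (Sum.inr k))
    (t : ℝ) (ht0 : 0 ≤ t) (ht1 : t ≤ 1)
    (hprod : w (Sum.inl 0) * w (Sum.inl 1) =
      (b (Sum.inl 0) * c (Sum.inl 0)) * (b (Sum.inl 1) * c (Sum.inl 1)))
    (hsum : w (Sum.inl 0) + w (Sum.inl 1) =
      t * (b (Sum.inl 0) * c (Sum.inl 0) + b (Sum.inl 1) * c (Sum.inl 1)) +
      (1 - t) * (b (Sum.inl 0) * c (Sum.inl 1) + b (Sum.inl 1) * c (Sum.inl 0))) :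
    ∃ R U : Matrix (Fin 2 ⊕ κ) (Fin 2 ⊕ κ) ℂ, Rᴴ * R = 1 ∧ Uᴴ * U = 1 ∧
      diagonal b * (R * diagonal c * Rᴴ) = U * diagonal w * Uᴴ := by
  obtain ⟨r, u, hr, hu, h⟩ := two_by_two _ _ _ _ _ _ hb0 hb1 hc0 hc1 t ht0 ht1 hprod hsum
  have key : ∀ v : Fin 2 ⊕ κ → ℂ, diagonal v =
      fromBlocks (diagonal ![v (Sum.inl 0), v (Sum.inl 1)]) 0 0 (diagonal (fun k => v (Sum.inr k))) := by
    intro v
    rw [Matrix.fromBlocks_diagonal]
    congr 1
    funext i
    rcases i with i | i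
    · fin_cases i <;> rfl
    · rfl
  refine ⟨fromBlocks r 0 0 1, fromBlocks u 0 0 1, ?_, ?_, ?_⟩
  · rw [fromBlocks_conjTranspose, fromBlocks_multiply]
    simp [hr]
  · rw [fromBlocks_conjTranspose, fromBlocks_multiply]
    simp [hu]
  · rw [key b, key c, key w]
    simp only [fromBlocks_conjTranspose, fromBlocks_multiply]
    simp only [conjTranspose_zero, conjTranspose_one, Matrix.mul_zero, Matrix.zero_mul, add_zero,
      zero_add, Matrix.mul_one, Matrix.one_mul, h, diagonal_mul_diagonal, hw]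

theorem block {n : ℕ} (p q : Fin n) (hpq : p ≠ q) (b c w : Fin n → ℂ)
    (hb : ∀ i, star (b i) * b i = 1) (hc : ∀ i, star (c i) * c i = 1)
    (hw : ∀ i, i ≠ p → i ≠ q → w i = b i * c i)
    (t : ℝ) (ht0 : 0 ≤ t) (ht1 : t ≤ 1)
    (hprod : w p * w q = (b p * c p) * (b q * c q))
    (hsum : w p + w q = t * (b p * c p + b q * c q) + (1 - t) * (b p * c q + b q * c p)) :
    ∃ R U : Matrix (Fin n) (Fin n) ℂ, Rᴴ * R = 1 ∧ Uᴴ * U = 1 ∧
      diagonal b * (R * diagonal c * Rᴴ) = U * diagonal w * Uᴴ := by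
  classical
  let κ := {i : Fin n // ¬ (i = p ∨ i = q)}
  let f : Fin 2 ≃ {i : Fin n // i = p ∨ i = q} :=
    { toFun := ![⟨p, Or.inl rfl⟩, ⟨q, Or.inr rfl⟩]
      invFun := fun x => if x.1 = p then 0 else 1
      left_inv := by
        intro i
        fin_cases i
        · simp
        · simp [Ne.symm hpq]
      right_inv := by
        rintro ⟨x, hx⟩
        by_cases hxp : x = p
        · subst hxp; simp
        · have hxq : x = q := by tauto
          subst hxq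
          simp [hxp] }
  let e : Fin 2 ⊕ κ ≃ Fin n :=
    (Equiv.sumCongr f (Equiv.refl κ)).trans (Equiv.sumCompl (fun i => i = p ∨ i = q))
  have e0 : e (Sum.inl 0) = p := rfl
  have e1 : e (Sum.inl 1) = q := rfl
  have er : ∀ k : κ, e (Sum.inr k) = k.1 := fun k => rfl
  obtain ⟨R, U, hR, hU, h⟩ := block_sum (fun i => b (e i)) (fun i => c (e i)) (fun i => w (e i))
    (hb _) (hb _) (hc _) (hc _)
    (by
      intro k
      apply hw
      · rw [er]; exact fun h => k.2 (Or.inl h)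
      · rw [er]; exact fun h => k.2 (Or.inr h))
    t ht0 ht1 (by simpa only [e0, e1] using hprod) (by simpa only [e0, e1] using hsum)
  have hd : ∀ v : Fin n → ℂ, diagonal v = (diagonal (fun i => v (e i))).submatrix e.symm e.symm := by
    intro v
    rw [Matrix.submatrix_diagonal_equiv]
    congr 1
    funext i
    simp
  refine ⟨R.submatrix e.symm e.symm, U.submatrix e.symm e.symm, ?_, ?_, ?_⟩
  · rw [conjTranspose_submatrix, submatrix_mul_equiv, hR, submatrix_one_equiv]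
  · rw [conjTranspose_submatrix, submatrix_mul_equiv, hU, submatrix_one_equiv]
  · rw [hd b, hd c, hd w]
    simp only [conjTranspose_submatrix, submatrix_mul_equiv, h]

end Pool.Agent.K3h30.SU4
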