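import Pool.Agent.K3h30.SU4.Select2

/-! # Four involutions in `SU(n)` -/

namespace Pool.Agent.K3h30.SU4

open Matrix Pool.Agent.H16.SUn

/-- First pairing. -/
def tB (N : ℕ) (i : Fin (N + 2)) : Fin (N + 2) :=
  Fin.addCases (motive := fun _ => Fin (N + 2)) (fun i => Fin.castAdd 2 (tX N i))
    (fun j => Fin.natAdd N j) i

/-- Second pairing. -/
def tC (N : ℕ) (i : Fin (N + 2)) : Fin (N + 2) :=
  Fin.addCases (motive := fun _ => Fin (N + 2)) (fun i => Fin.castAdd 2 (tY N i))
    (fun j => Fin.natAdd N (Equiv.swap 0 1 j)) i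

theorem tB_left (N : ℕ) (i : Fin N) : tB N (Fin.castAdd 2 i) = Fin.castAdd 2 (tX N i) := by
  simp [tB]

theorem tB_right (N : ℕ) (j : Fin 2) : tB N (Fin.natAdd N j) = Fin.natAdd N j := by
  simp [tB]

theorem tC_left (N : ℕ) (i : Fin N) : tC N (Fin.castAdd 2 i) = Fin.castAdd 2 (tY N i) := by
  simp [tC]

theorem tC_right (N : ℕ) (j : Fin 2) :
    tC N (Fin.natAdd N j) = Fin.natAdd N (Equiv.swap 0 1 j) := by
  simp [tC]

theorem tB_inv (N : ℕ) (i : Fin (N + 2)) : tB N (tB N i) = i := by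
  refine Fin.addCases (fun i => ?_) (fun j => ?_) i
  · rw [tB_left, tB_left, tX_inv]
  · rw [tB_right, tB_right]

theorem tC_inv (N : ℕ) (i : Fin (N + 2)) : tC N (tC N i) = i := by
  refine Fin.addCases (fun i => ?_) (fun j => ?_) i
  · rw [tC_left, tC_left, tY_inv]
  · rw [tC_right, tC_right, Equiv.swap_apply_self]

/-- First pairing as a permutation. -/
def sB (N : ℕ) : Equiv.Perm (Fin (N + 2)) := ⟨tB N, tB N, tB_inv N, tB_inv N⟩

/-- Second pairing as a permutation. -/
def sC (N : ℕ) : Equiv.Perm (Fin (N + 2)) := ⟨tC N, tC N, tC_inv N, tC_inv N⟩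

/-- The sequence with the virtual entry. -/
noncomputable def ww (N l : ℕ) (w : Fin (N + 2) → ℂ) (x : ℂ) (i : Fin N) : ℂ :=
  if (i : ℕ) = l then x else w (Fin.castAdd 2 i)

theorem core (N : ℕ) (hN : N % 4 = 0) (hN4 : 4 ≤ N) (w : Fin (N + 2) → ℂ)
    (hw : ∀ i, star (w i) * w i = 1) (hp : ∏ i, w i = 1) (l : ℕ) (hl : l < N) (hl2 : l % 2 = 0)
    (hs : Seg (w ⟨l, by omega⟩) (w ⟨N + 1, by omega⟩) (w ⟨N, by omega⟩)
      (∏ i ∈ Finset.range l, if h : i < N + 2 then w ⟨i, h⟩ else 1)) :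
    ∃ b c : Fin (N + 2) → ℂ, ∃ R U : Matrix (Fin (N + 2)) (Fin (N + 2)) ℂ,
      Rᴴ * R = 1 ∧ Uᴴ * U = 1 ∧ diagonal b * (R * diagonal c * Rᴴ) = U * diagonal w * Uᴴ ∧
      (∃ I1 I2, IsInv (N + 2) I1 ∧ IsInv (N + 2) I2 ∧ Matrix.diagonal b = I1 * I2) ∧
      (∃ I1 I2, IsInv (N + 2) I1 ∧ IsInv (N + 2) I2 ∧ Matrix.diagonal c = I1 * I2) := by
  obtain ⟨G, hG, t, ht0, ht1, hseg⟩ := hs
  have hG2 : (G : ℂ) * G = 1 := by
    rcases hG with h | h <;> rw [h] <;> norm_num
  have hGs : star (G : ℂ) = G := by simp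
  set p : Fin (N + 2) := ⟨l, by omega⟩ with hpdef
  set q : Fin (N + 2) := ⟨N + 1, by omega⟩ with hqdef
  set d : Fin (N + 2) := ⟨N, by omega⟩ with hddef
  set lp : Fin N := ⟨l, hl⟩ with hlp
  have ep : p = Fin.castAdd 2 lp := Fin.ext rfl
  have eq1 : q = Fin.natAdd N 1 := Fin.ext rfl
  have ed : d = Fin.natAdd N 0 := Fin.ext rfl
  set x : ℂ := w p * w d * w q with hx
  set v : Fin N → ℂ := ww N l w x with hv
  have vl : v lp = x := by simp [hv, ww, hlp]
  have vne : ∀ i : Fin N, i ≠ lp → v i = w (Fin.castAdd 2 i) := by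
    intro i hi
    have : ¬ (i : ℕ) = l := fun h => hi (Fin.ext h)
    simp [hv, ww, this]
  have hxu : star x * x = 1 := by
    rw [hx, star_mul', star_mul']
    linear_combination (star (w d) * w d * (star (w q) * w q)) * hw p +
      (star (w q) * w q) * hw d + hw q
  have hv1 : ∀ i, star (v i) * v i = 1 := by
    intro i
    by_cases h : i = lp
    · rw [h, vl]; exact hxu
    · rw [vne i h]; exact hw _
  have hvp : ∏ i, v i = 1 := by
    have h1 : ∏ i, v i = x * ∏ i ∈ Finset.univ.erase lp, v i := by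
      rw [← Finset.mul_prod_erase Finset.univ v (Finset.mem_univ lp), vl]
    have h2 : ∏ i : Fin N, w (Fin.castAdd 2 i) =
        w p * ∏ i ∈ Finset.univ.erase lp, w (Fin.castAdd 2 i) := by
      rw [← Finset.mul_prod_erase Finset.univ (fun i => w (Fin.castAdd 2 i)) (Finset.mem_univ lp),
        ep]
    have h3 : ∏ i ∈ Finset.univ.erase lp, v i
        = ∏ i ∈ Finset.univ.erase lp, w (Fin.castAdd 2 i) := by
      apply Finset.prod_congr rfl
      intro i hi
      exact vne i (Finset.ne_of_mem_erase hi)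
    rw [Fin.prod_univ_add, Fin.prod_univ_two, h2, ← ed, ← eq1] at hp
    rw [h1, h3, hx]
    linear_combination hp
  have hNpow : (G : ℂ) ^ N = 1 := by
    have : (G : ℂ) ^ N = ((G : ℂ) * G) ^ (N / 2) := by
      rw [← pow_two, ← pow_mul]
      congr 1
      omega
    rw [this, hG2, one_pow]
  set b : Fin (N + 2) → ℂ := Fin.append (fun i => (G : ℂ) * xx v i) ![1, 1] with hb
  set c : Fin (N + 2) → ℂ := Fin.append (fun i => (G : ℂ) * yy v i) ![w d, star (w d)] with hc
  have bl : ∀ i : Fin N, b (Fin.castAdd 2 i) = G * xx v i := fun i => by rw [hb, Fin.append_left]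
  have cl : ∀ i : Fin N, c (Fin.castAdd 2 i) = G * yy v i := fun i => by rw [hc, Fin.append_left]
  have b0 : b (Fin.natAdd N 0) = 1 := by rw [hb, Fin.append_right]; rfl
  have b1 : b (Fin.natAdd N 1) = 1 := by rw [hb, Fin.append_right]; rfl
  have c0 : c (Fin.natAdd N 0) = w d := by rw [hc, Fin.append_right]; rfl
  have c1 : c (Fin.natAdd N 1) = star (w d) := by rw [hc, Fin.append_right]; rfl
  have bu : ∀ i, star (b i) * b i = 1 := by
    intro i
    refine Fin.addCases (fun i => ?_) (fun j => ?_) i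
    · rw [bl, star_mul', hGs]
      linear_combination (star (xx v i) * xx v i) * hG2 + xx_norm v hv1 i
    · fin_cases j
      · change star (b (Fin.natAdd N 0)) * b (Fin.natAdd N 0) = 1
        rw [b0]; simp
      · change star (b (Fin.natAdd N 1)) * b (Fin.natAdd N 1) = 1
        rw [b1]; simp
  have cu : ∀ i, star (c i) * c i = 1 := by
    intro i
    refine Fin.addCases (fun i => ?_) (fun j => ?_) i
    · rw [cl, star_mul', hGs]
      linear_combination (star (yy v i) * yy v i) * hG2 + yy_norm v hv1 i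
    · fin_cases j
      · change star (c (Fin.natAdd N 0)) * c (Fin.natAdd N 0) = 1
        rw [c0]; exact hw _
      · change star (c (Fin.natAdd N 1)) * c (Fin.natAdd N 1) = 1
        rw [c1, star_star, mul_comm]; exact hw _
  -- the values at the block
  have ppS : pp v l = ∏ i ∈ Finset.range l, if h : i < N + 2 then w ⟨i, h⟩ else 1 := by
    unfold pp
    apply Finset.prod_congr rfl
    intro i hi
    rw [Finset.mem_range] at hi
    rw [dif_pos (by omega : i < N), dif_pos (by omega : i < N + 2), vne]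
    · rfl
    · intro h
      have := congrArg Fin.val h
      simp [hlp] at this
      omega
  set S : ℂ := ∏ i ∈ Finset.range l, if h : i < N + 2 then w ⟨i, h⟩ else 1 with hS
  have hSu : star S * S = 1 := by rw [← ppS]; exact pp_norm v hv1 l
  have bp : b p = G * (S * x) := by
    rw [ep, bl]
    unfold xx
    rw [if_pos (by simpa [hlp] using hl2), pp_succ, vl]
    simp only [hlp, ppS]
  have cp : c p = G * star S := by
    rw [ep, cl]
    unfold yy
    rw [if_neg (by simp [hlp]; omega)]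
    simp only [hlp, ppS]
  have bq : b q = 1 := by rw [eq1, b1]
  have cq : c q = star (w d) := by rw [eq1, c1]
  have hpq : p ≠ q := by
    intro h
    have := congrArg Fin.val h
    simp [hpdef, hqdef] at this
    omega
  obtain ⟨R, U, hR, hU, h⟩ := block p q hpq b c w bu cu (by
      intro i
      refine Fin.addCases (fun i => ?_) (fun j => ?_) i
      · intro h1 _
        have h3 : i ≠ lp := by
          intro h; apply h1; rw [ep, h]
        rw [bl, cl, ← vne i h3]
        linear_combination (-(xx v i * yy v i)) * hG2 - xx_mul_yy v hv1 i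
      · intro _ h2
        fin_cases j
        · change w (Fin.natAdd N 0) = b (Fin.natAdd N 0) * c (Fin.natAdd N 0)
          rw [b0, c0, ed]; simp
        · exact absurd eq1.symm h2) t ht0 ht1 (by
      rw [bp, cp, bq, cq, hx]
      linear_combination (-(w p * w q * (G * G) * (star S * S))) * hw d
        - (w p * w q * (G * G)) * hSu - (w p * w q) * hG2) (by
      rw [bp, cp, bq, cq, hseg, hx]
      linear_combination (- (t : ℂ) * (w p * w d * w q) * (G * G)) * hSu
        - (t : ℂ) * (w p * w d * w q) * hG2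
        - (1 - (t : ℂ)) * (G * S * w p * w q) * hw d)
  refine ⟨b, c, R, U, hR, hU, h, ?_, ?_⟩
  · apply two_inv' (sB N) b (tB_inv N) bu
    · intro y
      refine Fin.addCases (fun i => ?_) (fun j => ?_) y
      · change b (tB N _) = _
        rw [tB_left, bl, bl, star_mul', hGs]
        congr 1
        exact xx_sX v hvp i
      · change b (tB N _) = _
        rw [tB_right]
        fin_cases j
        · change b (Fin.natAdd N 0) = star (b (Fin.natAdd N 0))
          rw [b0]; simp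
        · change b (Fin.natAdd N 1) = star (b (Fin.natAdd N 1))
          rw [b1]; simp
    · rw [Fin.prod_univ_add, Fin.prod_univ_two, b0, b1]
      simp only [bl]
      rw [Finset.prod_mul_distrib, Finset.prod_const, Finset.card_univ, Fintype.card_fin, hNpow,
        prod_one (sX N) (xx v) tX_inv (xx_norm v hv1) (xx_sX v hvp) (xx_fix v hvp)]
      simp
    · right
      exact ⟨Fin.natAdd N 0, tB_right N 0⟩
  · apply two_inv' (sC N) c (tC_inv N) cu
    · intro y
      refine Fin.addCases (fun i => ?_) (fun j => ?_) y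
      · change c (tC N _) = _
        rw [tC_left, cl, cl, star_mul', hGs]
        congr 1
        exact yy_sY v hvp i
      · change c (tC N _) = _
        rw [tC_right]
        fin_cases j
        · change c (Fin.natAdd N (Equiv.swap 0 1 0)) = star (c (Fin.natAdd N 0))
          rw [Equiv.swap_apply_left, c0, c1]
        · change c (Fin.natAdd N (Equiv.swap 0 1 1)) = star (c (Fin.natAdd N 1))
          rw [Equiv.swap_apply_right, c0, c1, star_star]
    · rw [Fin.prod_univ_add, Fin.prod_univ_two, c0, c1]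
      simp only [cl]
      rw [Finset.prod_mul_distrib, Finset.prod_const, Finset.card_univ, Fintype.card_fin, hNpow,
        prod_one (sY N) (yy v) tY_inv (yy_norm v hv1) (yy_sY v hvp) (yy_fix v hvp)]
      rw [one_mul, one_mul, mul_comm]
      exact hw d
    · right
      refine ⟨Fin.castAdd 2 ⟨0, by omega⟩, ?_⟩
      change tC N _ = _
      rw [tC_left]
      congr 1

theorem submatrix_diag {n : ℕ} (P : Matrix (Fin n) (Fin n) ℂ) (z : Fin n → ℂ)
    (e : Fin n ≃ Fin n) :
    P.submatrix id e * diagonal (fun i => z (e i)) * (P.submatrix id e)ᴴ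
      = P * diagonal z * Pᴴ := by
  have : diagonal (fun i => z (e i)) = (diagonal z).submatrix e e := by
    rw [Matrix.submatrix_diagonal_equiv]; rfl
  rw [this, conjTranspose_submatrix, submatrix_mul_equiv, submatrix_mul_equiv, submatrix_id_id]

theorem submatrix_unit {n : ℕ} {P : Matrix (Fin n) (Fin n) ℂ} (h : P * Pᴴ = 1)
    (e : Fin n ≃ Fin n) : (P.submatrix id e)ᴴ * P.submatrix id e = 1 := by
  apply mul_eq_one_comm.mp
  rw [conjTranspose_submatrix, submatrix_mul_equiv, h, submatrix_id_id]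

theorem four_even (N : ℕ) (hN : N % 4 = 0) (hN4 : 4 ≤ N) {A : Matrix (Fin (N + 2)) (Fin (N + 2)) ℂ}
    (hA : A ∈ Matrix.specialUnitaryGroup (Fin (N + 2)) ℂ) :
    ∃ I1 I2 I3 I4, IsInv (N + 2) I1 ∧ IsInv (N + 2) I2 ∧ IsInv (N + 2) I3 ∧ IsInv (N + 2) I4 ∧
      A = I1 * I2 * I3 * I4 := by
  rw [Matrix.mem_specialUnitaryGroup_iff, Matrix.mem_unitaryGroup_iff,
    Matrix.star_eq_conjTranspose] at hA
  obtain ⟨h1, h2⟩ := hA
  have h3 : Aᴴ * A = 1 := mul_eq_one_comm.mp h1
  obtain ⟨P, z, e1, e2, e3, e4⟩ := diagonalise h3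
  have hp : ∏ i, z i = 1 := by
    have : A.det = ∏ i, z i := by
      rw [e3, det_mul, det_mul, det_diagonal]
      calc P.det * (∏ i, z i) * Pᴴ.det = (P * Pᴴ).det * ∏ i, z i := by rw [det_mul]; ring
        _ = ∏ i, z i := by rw [e2, det_one, one_mul]
    rw [← this, h2]
  obtain ⟨s, l, hl, hl2, hs⟩ := select N hN hN4 z e4 hp
  set e : Fin (N + 2) ≃ Fin (N + 2) := Equiv.addRight s with he
  have hes : ∀ i, e i = i + s := fun i => rfl
  set w : Fin (N + 2) → ℂ := fun i => z (e i) with hw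
  have hwp : ∏ i, w i = 1 := by rw [← hp]; exact Equiv.prod_comp e z
  obtain ⟨b, c, R, U, hR, hU, h, ⟨J1, J2, j1, j2, hJ⟩, ⟨K1, K2, k1, k2, hK⟩⟩ :=
    core N hN hN4 w (fun i => e4 _) hwp l hl hl2 hs
  set Q := P.submatrix id e with hQ
  have hQ1 : Qᴴ * Q = 1 := submatrix_unit e2 e
  have hQA : A = Q * diagonal w * Qᴴ := by
    rw [e3, hQ, hw]
    exact (submatrix_diag P z e).symm
  -- `diag w = Uᴴ (diag b) (R (diag c) Rᴴ) U`
  have hV1 : (Q * Uᴴ)ᴴ * (Q * Uᴴ) = 1 := unit_mul hQ1 (unit_ct hU)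
  have hV2 : (Q * Uᴴ) * (Q * Uᴴ)ᴴ = 1 := mul_eq_one_comm.mp hV1
  have hW1 : (Q * Uᴴ * R)ᴴ * (Q * Uᴴ * R) = 1 := unit_mul hV1 hR
  have hW2 : (Q * Uᴴ * R) * (Q * Uᴴ * R)ᴴ = 1 := mul_eq_one_comm.mp hW1
  have hkey : A = (Q * Uᴴ) * (diagonal b * (R * diagonal c * Rᴴ)) * (Q * Uᴴ)ᴴ := by
    rw [h, hQA, conjTranspose_mul, conjTranspose_conjTranspose]
    calc Q * diagonal w * Qᴴ = Q * (1 * diagonal w * 1) * Qᴴ := by simp only [one_mul, mul_one]
      _ = Q * ((Uᴴ * U) * diagonal w * (Uᴴ * U)) * Qᴴ := by rw [hU]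
      _ = Q * Uᴴ * (U * diagonal w * Uᴴ) * (U * Qᴴ) := by simp only [mul_assoc]
  refine ⟨_, _, _, _, isInv_conj hV1 hV2 j1, isInv_conj hV1 hV2 j2, isInv_conj hW1 hW2 k1,
    isInv_conj hW1 hW2 k2, ?_⟩
  set V := Q * Uᴴ with hV
  calc A = V * (diagonal b * (R * diagonal c * Rᴴ)) * Vᴴ := hkey
    _ = V * (J1 * J2) * 1 * (R * (K1 * K2) * Rᴴ) * Vᴴ := by
        rw [hJ, hK]; simp only [mul_assoc, one_mul]
    _ = V * (J1 * 1 * J2) * (Vᴴ * V) * (R * (K1 * 1 * K2) * Rᴴ) * Vᴴ := by
        rw [hV1]; simp only [mul_one]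
    _ = V * (J1 * (Vᴴ * V) * J2) * (Vᴴ * V) * (R * (K1 * ((V * R)ᴴ * (V * R)) * K2) * Rᴴ) * Vᴴ := by
        rw [hV1, hW1]
    _ = V * J1 * Vᴴ * (V * J2 * Vᴴ) * (V * R * K1 * (V * R)ᴴ) * (V * R * K2 * (V * R)ᴴ) := by
        rw [conjTranspose_mul V R]; simp only [mul_assoc]

theorem sign_sX (n : ℕ) (hn : n % 4 = 0) : Equiv.Perm.sign (sX n) = 1 := by
  have h2 : (sX n) ^ 2 = 1 := by
    ext i
    rw [pow_two, Equiv.Perm.mul_apply, sX_apply, sX_apply, tX_inv]
    rfl
  have h0 : Fintype.card (Function.fixedPoints (sX n)) = 0 := by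
    rw [Fintype.card_eq_zero_iff]
    constructor
    rintro ⟨i, hi⟩
    have h : tX n i = i := hi
    unfold tX at h
    by_cases h1 : (i : ℕ) % 2 = 0
    · have h3 : (i : ℕ) + 1 < n := by omega
      rw [if_pos h1, dif_pos h3] at h
      have := congrArg Fin.val h
      simp at this
    · rw [if_neg h1] at h
      have := congrArg Fin.val h
      simp at this
      omega
  rw [Equiv.Perm.sign_of_pow_two_eq_one h2, h0, Fintype.card_fin]
  exact Even.neg_one_pow (by rw [Nat.even_iff]; omega)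

/-- Every element of `SU(n)`, `n ≥ 3`, is a product of four involutions of `SU(n)`. -/
theorem four {n : ℕ} {A : Matrix (Fin n) (Fin n) ℂ} (hn : 3 ≤ n)
    (hA : A ∈ Matrix.specialUnitaryGroup (Fin n) ℂ) :
    ∃ I1 I2 I3 I4, IsInv n I1 ∧ IsInv n I2 ∧ IsInv n I3 ∧ IsInv n I4 ∧
      A = I1 * I2 * I3 * I4 := by
  by_cases h42 : n % 4 = 2
  · obtain ⟨N, rfl⟩ : ∃ N, n = N + 2 := ⟨n - 2, by omega⟩
    exact four_even N (by omega) (by omega) hA
  · obtain ⟨P, z, e1, e2, e3, e4, e5⟩ := reduce hA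
    obtain ⟨J1, J2, j1, j2, hY⟩ := yy_two z (by omega) e4 e5
    have hsg : Equiv.Perm.sign (sX n) = 1 ∨ n % 2 = 1 := by
      by_cases h : n % 2 = 1
      · exact Or.inr h
      · exact Or.inl (sign_sX n (by omega))
    obtain ⟨K1, K2, k1, k2, hX⟩ := xx_two z (by omega) e4 e5 hsg
    refine ⟨_, _, _, _, isInv_conj e1 e2 k1, isInv_conj e1 e2 k2,
      isInv_conj e1 e2 j1, isInv_conj e1 e2 j2, ?_⟩
    calc A = P * (K1 * K2 * (J1 * J2)) * Pᴴ := by rw [e3, hX, hY]
      _ = P * K1 * (1 * K2) * (1 * J1) * (1 * J2) * Pᴴ := by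
          simp only [mul_assoc, one_mul]
      _ = P * K1 * (Pᴴ * P * K2) * (Pᴴ * P * J1) * (Pᴴ * P * J2) * Pᴴ := by
          rw [e1]
      _ = _ := by simp only [mul_assoc]

end Pool.Agent.K3h30.SU4
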