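import Pool.Agent.K3h30.SU4.Block

/-! # Choosing the block and the shift -/

namespace Pool.Agent.K3h30.SU4

open Matrix Pool.Agent.H16.SUn

/-- The segment condition. -/
def Seg (a a' d S : ℂ) : Prop :=
  ∃ G : ℝ, (G = 1 ∨ G = -1) ∧ ∃ t : ℝ, 0 ≤ t ∧ t ≤ 1 ∧
    a + a' = t * (a * a' * d + star d) + (1 - t) * (G * (a * a' * S + star S))

theorem between (x y v : ℝ) (h : (y ≤ x ∧ x ≤ v) ∨ (x ≤ y ∧ v ≤ x)) :
    ∃ t : ℝ, 0 ≤ t ∧ t ≤ 1 ∧ x = t * y + (1 - t) * v := by
  rcases h with ⟨h1, h2⟩ | ⟨h1, h2⟩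
  · have : x ∈ segment ℝ y v := by
      rw [segment_eq_Icc (h1.trans h2)]; exact ⟨h1, h2⟩
    obtain ⟨a, b, ha, hb, hab, h⟩ := this
    refine ⟨a, ha, by linarith, ?_⟩
    have : b = 1 - a := by linarith
    rw [← h, this]
    simp
  · have : x ∈ segment ℝ v y := by
      rw [segment_eq_Icc (h2.trans h1)]; exact ⟨h2, h1⟩
    obtain ⟨a, b, ha, hb, hab, h⟩ := this
    refine ⟨b, hb, by linarith, ?_⟩
    have : a = 1 - b := by linarith
    rw [← h, this]
    simp
    ring

theorem add_star (x : ℂ) : x + star x = 2 * (x.re : ℂ) := by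
  apply Complex.ext
  · simp; ring
  · simp

theorem seg_of_between (a a' d S ρ : ℂ) (ha : star a * a = 1)
    (hρ : ρ * ρ = a * a') (hρ1 : star ρ * ρ = 1)
    (h : ((ρ * d).re ≤ (a * star ρ).re ∧ (a * star ρ).re ≤ |(ρ * S).re|) ∨
      ((a * star ρ).re ≤ (ρ * d).re ∧ -|(ρ * S).re| ≤ (a * star ρ).re)) : Seg a a' d S := by
  have e1 : a + a' = 2 * ((a * star ρ).re : ℂ) * ρ := by
    rw [← add_star, star_mul, star_star]
    linear_combination (-a) * hρ1 - (star a) * hρ - a' * ha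
  have e2 : a * a' * d + star d = 2 * ((ρ * d).re : ℂ) * ρ := by
    rw [← add_star, star_mul]
    linear_combination (-d) * hρ - star d * hρ1
  have e3 : a * a' * S + star S = 2 * ((ρ * S).re : ℂ) * ρ := by
    rw [← add_star, star_mul]
    linear_combination (-S) * hρ - star S * hρ1
  have key : ∃ G : ℝ, (G = 1 ∨ G = -1) ∧ ∃ t : ℝ, 0 ≤ t ∧ t ≤ 1 ∧
      (a * star ρ).re = t * (ρ * d).re + (1 - t) * (G * (ρ * S).re) := by
    have hG : ∃ G : ℝ, (G = 1 ∨ G = -1) ∧ G * (ρ * S).re = |(ρ * S).re| := by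
      rcases abs_cases ((ρ * S).re) with h | h
      · exact ⟨1, Or.inl rfl, by rw [h.1]; ring⟩
      · exact ⟨-1, Or.inr rfl, by rw [h.1]; ring⟩
    obtain ⟨G, hG1, hG2⟩ := hG
    rcases h with h | h
    · refine ⟨G, hG1, ?_⟩
      rw [hG2]
      exact between _ _ _ (Or.inl h)
    · refine ⟨-G, ?_, ?_⟩
      · rcases hG1 with h | h
        · right; rw [h]
        · left; rw [h]; ring
      · rw [neg_mul, hG2]
        exact between _ _ _ (Or.inr h)
  obtain ⟨G, hG1, t, ht0, ht1, ht⟩ := key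
  refine ⟨G, hG1, t, ht0, ht1, ?_⟩
  rw [e1, e2, e3, ht]
  push_cast
  ring

theorem seg_star {a a' d S : ℂ} (h : Seg a a' d S) : Seg (star a) (star a') (star d) (star S) := by
  obtain ⟨G, hG, t, h0, h1, h2⟩ := h
  refine ⟨G, hG, t, h0, h1, ?_⟩
  have := congrArg star h2
  simp only [star_add, star_mul', star_star, star_sub, star_one] at this
  have hr : ∀ x : ℝ, star (x : ℂ) = x := fun x => by simp
  rw [hr, hr] at this
  rw [this]
  simp only [star_star]

theorem exists_rho (x : ℂ) (hx : star x * x = 1) : ∃ ρ : ℂ, ρ * ρ = x ∧ star ρ * ρ = 1 := by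
  obtain ⟨ρ, hρ⟩ := IsAlgClosed.exists_pow_nat_eq x (n := 2) (by norm_num)
  have hx2 : ‖x‖ = 1 := by
    have h := Complex.conj_mul' x
    have h' : star x * x = ((‖x‖ ^ 2 : ℝ) : ℂ) := by
      push_cast; exact h
    rw [hx] at h'
    have h3 : ‖x‖ ^ 2 = 1 := by exact_mod_cast h'.symm
    nlinarith [norm_nonneg x]
  have h4 : ‖ρ‖ ^ 2 = 1 := by rw [← norm_pow, hρ, hx2]
  refine ⟨ρ, by rw [← hρ]; ring, ?_⟩
  have h := Complex.conj_mul' ρ
  have h' : star ρ * ρ = ((‖ρ‖ ^ 2 : ℝ) : ℂ) := by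
    push_cast; exact h
  rw [h', h4]; simp

theorem unit_sq {x : ℂ} (hx : star x * x = 1) : x.re ^ 2 + x.im ^ 2 = 1 := by
  have := congrArg Complex.re hx
  simp at this
  linarith

theorem seg_of_im (a a' d : ℂ) (ha : star a * a = 1) (ha' : star a' * a' = 1)
    (him : a.im * a'.im ≤ 0) : Seg a a' d 1 := by
  obtain ⟨ρ, hρ, hρ1⟩ := exists_rho (a * a') (by
    rw [star_mul']
    linear_combination (star a' * a') * ha + ha')
  have hsq : |(a * star ρ).re| ≤ |(ρ * 1).re| := by
    rw [mul_one]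
    rw [← sq_le_sq]
    have e1 : a + a' = 2 * ((a * star ρ).re : ℂ) * ρ := by
      rw [← add_star, star_mul, star_star]
      linear_combination (-a) * hρ1 - (star a) * hρ - a' * ha
    have e2 : 1 + a * a' = 2 * (ρ.re : ℂ) * ρ := by
      rw [← add_star]
      linear_combination - hρ - hρ1
    have n1 : (a.re + a'.re) ^ 2 + (a.im + a'.im) ^ 2 = 4 * (a * star ρ).re ^ 2 := by
      have r1 := congrArg Complex.re e1
      have i1 := congrArg Complex.im e1
      have hu := unit_sq hρ1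
      generalize (a * star ρ).re = x at r1 i1 ⊢
      simp at r1 i1
      rw [r1, i1]
      linear_combination (4 * x ^ 2) * hu
    have n2 : (1 + a.re * a'.re - a.im * a'.im) ^ 2 + (a.re * a'.im + a.im * a'.re) ^ 2
        = 4 * ρ.re ^ 2 := by
      have r1 := congrArg Complex.re e2
      have i1 := congrArg Complex.im e2
      have hu := unit_sq hρ1
      simp at r1 i1
      have r2 : 1 + a.re * a'.re - a.im * a'.im = 2 * ρ.re * ρ.re := by linarith
      rw [r2, i1]
      linear_combination (4 * ρ.re ^ 2) * hu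
    have ua := unit_sq ha
    have ua' := unit_sq ha'
    have : 4 * ρ.re ^ 2 - 4 * (a * star ρ).re ^ 2 = - 4 * (a.im * a'.im) := by
      rw [← n1, ← n2]
      linear_combination (a'.re ^ 2 + a'.im ^ 2 - 1) * ua
    nlinarith
  apply seg_of_between a a' d 1 ρ ha hρ hρ1
  rcases le_total ((ρ * d).re) ((a * star ρ).re) with h | h
  · left
    exact ⟨h, (le_abs_self _).trans hsq⟩
  · right
    refine ⟨h, ?_⟩
    have := neg_abs_le ((a * star ρ).re)
    linarith

theorem seg_of_angles (α β δ θ : ℝ) (k : ℤ) (ha : 0 < α ∧ α < Real.pi)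
    (hb : 0 < β ∧ β < Real.pi) (hd : 0 < δ ∧ δ < Real.pi)
    (h : (θ + β ≤ k * Real.pi ∧ k * Real.pi ≤ θ + α) ∨
      (θ + α ≤ k * Real.pi ∧ k * Real.pi ≤ θ + β)) :
    Seg (Complex.exp (α * Complex.I)) (Complex.exp (β * Complex.I)) (Complex.exp (δ * Complex.I))
      (Complex.exp (θ * Complex.I)) := by
  have hst : ∀ x : ℝ, star (Complex.exp (x * Complex.I)) = Complex.exp (((-x : ℝ) : ℂ) * Complex.I) := by
    intro x
    change (starRingEnd ℂ) _ = _
    rw [← Complex.exp_conj]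
    simp
  have hmul : ∀ x y : ℝ, Complex.exp (x * Complex.I) * Complex.exp (y * Complex.I)
      = Complex.exp (((x + y : ℝ) : ℂ) * Complex.I) := by
    intro x y
    rw [← Complex.exp_add]
    congr 1
    push_cast
    ring
  have hre : ∀ x : ℝ, (Complex.exp (x * Complex.I)).re = Real.cos x := by
    intro x
    rw [Complex.exp_ofReal_mul_I_re]
  apply seg_of_between _ _ _ _ (Complex.exp ((((α + β) / 2 : ℝ) : ℂ) * Complex.I))
  · rw [hst, hmul]; simp
  · rw [hmul, hmul]; congr 3; ring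
  · rw [hst, hmul]; simp
  · left
    rw [hst, hmul, hmul, hmul, hre, hre, hre]
    have c1 : Real.cos (α + -((α + β) / 2)) - Real.cos ((α + β) / 2 + δ)
        = 2 * Real.sin ((α + δ) / 2) * Real.sin ((β + δ) / 2) := by
      have h1 : α + -((α + β) / 2) = (α + δ) / 2 - (β + δ) / 2 := by ring
      have h2 : (α + β) / 2 + δ = (α + δ) / 2 + (β + δ) / 2 := by ring
      rw [h1, h2, Real.cos_sub, Real.cos_add]
      ring
    have s1 : 0 < Real.sin ((α + δ) / 2) := Real.sin_pos_of_pos_of_lt_pi (by linarith) (by linarith)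
    have s2 : 0 < Real.sin ((β + δ) / 2) := Real.sin_pos_of_pos_of_lt_pi (by linarith) (by linarith)
    refine ⟨by nlinarith [mul_pos s1 s2], ?_⟩
    set l : ℝ := k * Real.pi - θ with hl
    have c2 : |Real.cos ((α + β) / 2 + θ)| = |Real.cos ((α + β) / 2 - l)| := by
      have h1 : (α + β) / 2 + θ = ((α + β) / 2 - l) + k * Real.pi := by rw [hl]; ring
      rw [h1, Real.cos_add_int_mul_pi, abs_mul, abs_zpow]
      simp
    rw [c2]
    refine le_trans ?_ (le_abs_self _)
    have c3 : Real.cos ((α + β) / 2 - l) - Real.cos (α + -((α + β) / 2))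
        = 2 * Real.sin ((α - l) / 2) * Real.sin ((l - β) / 2) := by
      have h1 : α + -((α + β) / 2) = (α - l) / 2 + (l - β) / 2 := by ring
      have h2 : (α + β) / 2 - l = (α - l) / 2 - (l - β) / 2 := by ring
      rw [h1, h2, Real.cos_sub, Real.cos_add]
      ring
    have c4 : 0 ≤ 2 * Real.sin ((α - l) / 2) * Real.sin ((l - β) / 2) := by
      rcases h with ⟨h1, h2⟩ | ⟨h1, h2⟩
      · have s3 : 0 ≤ Real.sin ((α - l) / 2) :=
          Real.sin_nonneg_of_nonneg_of_le_pi (by rw [hl]; linarith) (by rw [hl]; linarith)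
        have s4 : 0 ≤ Real.sin ((l - β) / 2) :=
          Real.sin_nonneg_of_nonneg_of_le_pi (by rw [hl]; linarith) (by rw [hl]; linarith)
        positivity
      · have s3 : Real.sin ((α - l) / 2) ≤ 0 :=
          Real.sin_nonpos_of_nonpos_of_neg_pi_le (by rw [hl]; linarith) (by rw [hl]; linarith)
        have s4 : Real.sin ((l - β) / 2) ≤ 0 :=
          Real.sin_nonpos_of_nonpos_of_neg_pi_le (by rw [hl]; linarith) (by rw [hl]; linarith)
        nlinarith [mul_nonneg_of_nonpos_of_nonpos s3 s4]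
    linarith

end Pool.Agent.K3h30.SU4
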