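import Pool.Agent.K3h30.SU4.Select

/-! # Choosing the block and the shift: the main selection -/

namespace Pool.Agent.K3h30.SU4

open Matrix Pool.Agent.H16.SUn

/-- Discrete intermediate values. -/
theorem divt (f : ℕ → ℝ) (c : ℝ) (m : ℕ) (hm : 1 ≤ m)
    (h : (f 0 ≤ c ∧ c ≤ f m) ∨ (c ≤ f 0 ∧ f m ≤ c)) :
    ∃ i < m, (f i ≤ c ∧ c ≤ f (i + 1)) ∨ (f (i + 1) ≤ c ∧ c ≤ f i) := by
  by_contra hcon
  push Not at hcon
  rcases h with ⟨h0, h1⟩ | ⟨h0, h1⟩
  · have key : ∀ i, i < m → f i ≤ c ∧ f (i + 1) < c := by
      intro i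
      induction i with
      | zero => intro hi; exact ⟨h0, (hcon 0 hi).1 h0⟩
      | succ i ih =>
        intro hi
        have := (ih (by omega)).2
        exact ⟨this.le, (hcon (i + 1) hi).1 this.le⟩
    have := (key (m - 1) (by omega)).2
    rw [show m - 1 + 1 = m by omega] at this
    linarith
  · have key : ∀ i, i < m → c ≤ f i ∧ c < f (i + 1) := by
      intro i
      induction i with
      | zero =>
        intro hi
        refine ⟨h0, ?_⟩
        by_contra hc
        have := (hcon 0 hi).2 (not_lt.mp hc)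
        linarith
      | succ i ih =>
        intro hi
        have h2 := (ih (by omega)).2
        refine ⟨h2.le, ?_⟩
        by_contra hc
        have := (hcon (i + 1) hi).2 (not_lt.mp hc)
        linarith
    have := (key (m - 1) (by omega)).2
    rw [show m - 1 + 1 = m by omega] at this
    linarith

theorem arg_props {x : ℂ} (hx : star x * x = 1) (him : 0 < x.im) :
    Complex.exp (x.arg * Complex.I) = x ∧ 0 < x.arg ∧ x.arg < Real.pi := by
  have hx2 : ‖x‖ = 1 := by
    have h := Complex.conj_mul' x
    have h' : star x * x = ((‖x‖ ^ 2 : ℝ) : ℂ) := by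
      push_cast; exact h
    rw [hx] at h'
    have h3 : ‖x‖ ^ 2 = 1 := by exact_mod_cast h'.symm
    nlinarith [norm_nonneg x]
  have h1 : Complex.exp (x.arg * Complex.I) = x := by
    have := Complex.norm_mul_exp_arg_mul_I x
    rw [hx2] at this
    simpa using this
  have h2 : Real.sin x.arg = x.im := by
    have := congrArg Complex.im h1
    rw [Complex.exp_ofReal_mul_I_im] at this
    exact this
  refine ⟨h1, ?_, ?_⟩
  · by_contra hc
    have := Real.sin_nonpos_of_nonpos_of_neg_pi_le (not_lt.mp hc) (Complex.neg_pi_lt_arg x).le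
    linarith
  · rcases lt_or_eq_of_le (Complex.arg_le_pi x) with h | h
    · exact h
    · rw [h, Real.sin_pi] at h2
      linarith

theorem select_pos (m : ℕ) (hm : 1 ≤ m) (u : ℕ → ℂ) (hu : ∀ k, star (u k) * u k = 1)
    (him : ∀ k, 0 < (u k).im) (hp : ∏ k ∈ Finset.range (2 * m), u k = 1) :
    ∃ i < m, ∀ d, star d * d = 1 → 0 < d.im →
      Seg (u (i + m)) (u i) d (∏ j ∈ Finset.range (m - 1), u (i + 1 + j)) := by
  set θ : ℕ → ℝ := fun k => (u k).arg with hθ
  have e : ∀ k, Complex.exp (θ k * Complex.I) = u k := fun k => (arg_props (hu k) (him k)).1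
  have hpos : ∀ k, 0 < θ k ∧ θ k < Real.pi := fun k => (arg_props (hu k) (him k)).2
  have hprod : ∀ r i, ∏ j ∈ Finset.range r, u (i + j) =
      Complex.exp (((∑ j ∈ Finset.range r, θ (i + j) : ℝ) : ℂ) * Complex.I) := by
    intro r i
    push_cast
    rw [Finset.sum_mul, Complex.exp_sum]
    exact Finset.prod_congr rfl (fun j _ => (e _).symm)
  have hT : ∃ k : ℤ, ∑ j ∈ Finset.range (2 * m), θ j = 2 * (k * Real.pi) := by
    have h1 := hprod (2 * m) 0
    simp only [Nat.zero_add] at h1
    rw [hp] at h1
    obtain ⟨k, hk⟩ := Complex.exp_eq_one_iff.mp h1.symm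
    refine ⟨k, ?_⟩
    have h2 := congrArg Complex.im hk
    simp only [Complex.mul_im, Complex.ofReal_re, Complex.ofReal_im, Complex.I_im, Complex.I_re,
      Complex.intCast_re, Complex.intCast_im, Complex.mul_re] at h2
    norm_num at h2
    linarith
  obtain ⟨k, hk⟩ := hT
  set f : ℕ → ℝ := fun i => ∑ j ∈ Finset.range m, θ (i + j) with hf
  have hf0 : f 0 + f m = 2 * (k * Real.pi) := by
    rw [← hk, two_mul m, Finset.sum_range_add]
    simp [hf]
  have hd : (f 0 ≤ k * Real.pi ∧ k * Real.pi ≤ f m) ∨ (k * Real.pi ≤ f 0 ∧ f m ≤ k * Real.pi) := by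
    rcases le_total (f 0) (k * Real.pi) with h | h
    · left; exact ⟨h, by linarith⟩
    · right; exact ⟨h, by linarith⟩
  obtain ⟨i, him', hi⟩ := divt f _ m hm hd
  refine ⟨i, him', ?_⟩
  intro d hd1 hd2
  obtain ⟨d1, d2, d3⟩ := arg_props hd1 hd2
  rw [← e (i + m), ← e i, ← d1, hprod (m - 1) (i + 1)]
  have f1 : f i = (∑ j ∈ Finset.range (m - 1), θ (i + 1 + j)) + θ i := by
    rw [hf]
    simp only
    conv_lhs => rw [show m = (m - 1) + 1 by omega]
    rw [Finset.sum_range_succ']
    simp only [Nat.add_zero]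
    congr 1
    exact Finset.sum_congr rfl (fun j _ => by congr 1; omega)
  have f2 : f (i + 1) = (∑ j ∈ Finset.range (m - 1), θ (i + 1 + j)) + θ (i + m) := by
    rw [hf]
    simp only
    conv_lhs => rw [show m = (m - 1) + 1 by omega]
    rw [Finset.sum_range_succ]
    congr 2
    omega
  apply seg_of_angles _ _ _ _ k (hpos _) (hpos _) ⟨d2, d3⟩
  rw [← f1, ← f2]
  exact hi

theorem select (N : ℕ) (hN : N % 4 = 0) (hN4 : 4 ≤ N) (z : Fin (N + 2) → ℂ)
    (hz : ∀ i, star (z i) * z i = 1) (hp : ∏ i, z i = 1) :
    ∃ (s : Fin (N + 2)) (l : ℕ) (hl : l < N), l % 2 = 0 ∧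
      Seg (z (⟨l, by omega⟩ + s)) (z (⟨N + 1, by omega⟩ + s)) (z (⟨N, by omega⟩ + s))
        (∏ i ∈ Finset.range l, if h : i < N + 2 then z (⟨i, h⟩ + s) else 1) := by
  set u : ℕ → ℂ := fun k => z (Fin.ofNat (N + 2) k) with hu
  have hshift : ∀ i (h : i < N + 2) k (hk : k < N + 2), z (⟨i, h⟩ + ⟨k, hk⟩) = u (i + k) := by
    intro i h k hk
    rw [hu]
    congr 1
  have hval : ∀ i (h : i < N + 2), u i = z ⟨i, h⟩ := by
    intro i h
    rw [hu]
    simp only
    congr 1
    apply Fin.ext
    simp [Fin.ofNat, Nat.mod_eq_of_lt h]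
  have hper : ∀ k, u (k + (N + 2)) = u k := by
    intro k
    rw [hu]
    simp only
    congr 1
    apply Fin.ext
    simp [Fin.ofNat]
  have hu1 : ∀ k, star (u k) * u k = 1 := fun k => hz _
  have hprod : ∏ k ∈ Finset.range (N + 2), u k = 1 := by
    rw [Finset.prod_range, ← hp]
    exact Finset.prod_congr rfl (fun i _ => hval i i.2)
  by_cases hc : ∃ j, j + 1 < N + 2 ∧ (u (j + 1)).im * (u j).im ≤ 0
  · obtain ⟨j, hj, him⟩ := hc
    refine ⟨⟨j + 1, hj⟩, 0, by omega, rfl, ?_⟩
    rw [hshift, hshift, hshift, Finset.prod_range_zero]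
    have h1 : u (N + 1 + (j + 1)) = u j := by
      rw [show N + 1 + (j + 1) = j + (N + 2) by omega]; exact hper j
    rw [h1, Nat.zero_add]
    exact seg_of_im _ _ _ (hu1 _) (hu1 _) him
  · push Not at hc
    have key : ∀ (v : ℕ → ℂ), (∀ k, star (v k) * v k = 1) →
        (∏ k ∈ Finset.range (N + 2), v k = 1) → (∀ k, v (k + (N + 2)) = v k) →
        (∀ k, 0 < (v k).im) → ∃ i, i + 1 < N + 2 ∧
        Seg (v (N / 2 + (i + 1))) (v (N + 1 + (i + 1))) (v (N + (i + 1)))
          (∏ j ∈ Finset.range (N / 2), v (j + (i + 1))) := by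
      intro v hv1 hv2 hv3 hv4
      have h2m : 2 * (N / 2 + 1) = N + 2 := by omega
      obtain ⟨i, hi, h⟩ := select_pos (N / 2 + 1) (by omega) v hv1 hv4 (by rw [h2m]; exact hv2)
      refine ⟨i, by omega, ?_⟩
      have h1 := h (v (N + (i + 1))) (hv1 _) (hv4 _)
      have e1 : v (N + 1 + (i + 1)) = v i := by
        rw [show N + 1 + (i + 1) = i + (N + 2) by omega]; exact hv3 i
      rw [e1, show N / 2 + (i + 1) = i + (N / 2 + 1) by omega]
      have e2 : ∏ j ∈ Finset.range (N / 2 + 1 - 1), v (i + 1 + j)
          = ∏ j ∈ Finset.range (N / 2), v (j + (i + 1)) := by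
        rw [Nat.add_sub_cancel]
        exact Finset.prod_congr rfl (fun j _ => by rw [Nat.add_comm (i + 1) j])
      rw [e2] at h1
      exact h1
    have hsgn : (∀ k, 0 < (u k).im) ∨ (∀ k, (u k).im < 0) := by
      have h0 : (u 0).im ≠ 0 := by
        intro h0
        have := hc 0 (by omega)
        rw [h0] at this
        linarith [mul_zero ((u (0 + 1)).im)]
      have hmod : ∀ k, u k = u (k % (N + 2)) := by
        intro k
        rw [hu]
        simp only
        congr 1
        apply Fin.ext
        simp [Fin.ofNat]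
      rcases lt_or_gt_of_ne h0 with h | h
      · right
        have : ∀ k, k < N + 2 → (u k).im < 0 := by
          intro k
          induction k with
          | zero => intro _; exact h
          | succ k ih =>
            intro hk
            have h1 := hc k hk
            have h2 := ih (by omega)
            by_contra h3
            push Not at h3
            have := mul_nonpos_of_nonneg_of_nonpos h3 h2.le
            linarith
        intro k
        rw [hmod]
        exact this _ (Nat.mod_lt _ (by omega))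
      · left
        have : ∀ k, k < N + 2 → 0 < (u k).im := by
          intro k
          induction k with
          | zero => intro _; exact h
          | succ k ih =>
            intro hk
            have h1 := hc k hk
            have h2 := ih (by omega)
            by_contra h3
            push Not at h3
            have := mul_nonpos_of_nonpos_of_nonneg h3 h2.le
            linarith
        intro k
        rw [hmod]
        exact this _ (Nat.mod_lt _ (by omega))
    have fin : ∃ i, i + 1 < N + 2 ∧
        Seg (u (N / 2 + (i + 1))) (u (N + 1 + (i + 1))) (u (N + (i + 1)))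
          (∏ j ∈ Finset.range (N / 2), u (j + (i + 1))) := by
      rcases hsgn with h | h
      · exact key u hu1 hprod hper h
      · obtain ⟨i, hi, hs⟩ := key (fun k => star (u k))
          (fun k => by rw [star_star, mul_comm]; exact hu1 k)
          (by rw [← star_prod, hprod, star_one]) (fun k => by simp only [hper])
          (fun k => by
            have := h k
            simp
            exact this)
        refine ⟨i, hi, ?_⟩
        have := seg_star hs
        simp only [star_star, ← star_prod] at this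
        exact this
    obtain ⟨i, hi, hs⟩ := fin
    refine ⟨⟨i + 1, hi⟩, N / 2, by omega, by omega, ?_⟩
    rw [hshift, hshift, hshift]
    have : ∏ j ∈ Finset.range (N / 2), (if h : j < N + 2 then z (⟨j, h⟩ + ⟨i + 1, hi⟩) else 1)
        = ∏ j ∈ Finset.range (N / 2), u (j + (i + 1)) := by
      apply Finset.prod_congr rfl
      intro j hj
      rw [Finset.mem_range] at hj
      rw [dif_pos (by omega), hshift]
    rw [this]
    exact hs

end Pool.Agent.K3h30.SU4
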